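import Mathlib

namespace Pool.Agent.Results.MP_b969c4_an.MacLane

open Filter Topology Set
open scoped Nat

/-- A family `𝓕` of functions is normal on the open set `N`: every sequence in it has a
subsequence converging uniformly on compact subsets of `N` to an analytic function or to `∞`. -/
def NormalOn (N : Set ℂ) (𝓕 : Set (ℂ → ℂ)) : Prop :=
  ∀ s : ℕ → ℂ → ℂ, (∀ i, s i ∈ 𝓕) → ∃ e : ℕ → ℕ, StrictMono e ∧
    ((∃ g : ℂ → ℂ, DifferentiableOn ℂ g N ∧
        ∀ K : Set ℂ, K ⊆ N → IsCompact K → TendstoUniformlyOn (fun i => s (e i)) g atTop K) ∨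
      (∀ K : Set ℂ, K ⊆ N → IsCompact K →
        ∀ M : ℝ, ∀ᶠ i in atTop, ∀ z ∈ K, M ≤ ‖s (e i) z‖))

/-- The set of MacLane points of `f` on the domain `G`. -/
def macLane (G : Set ℂ) (f : ℂ → ℂ) : Set ℂ :=
  {z | z ∈ G ∧ ∃ N : Set ℂ, IsOpen N ∧ z ∈ N ∧ N ⊆ G ∧
    NormalOn N {h | ∃ n : ℕ, h = iteratedDeriv n f}}

section construct

variable (w : ℕ → ℂ)

def c (l : ℕ) : ℝ := ((2 ^ (l + 1)) ! : ℝ) * ((l : ℝ) + 1) ^ (2 ^ (l + 2))

lemma c_pos (l : ℕ) : 0 < c l := by unfold c; positivity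

/-- the `n`-th derivative of the `l`-th term -/
noncomputable def T (n l : ℕ) (z : ℂ) : ℂ :=
  (c l : ℂ) / ((2 ^ (l + 2)) ! : ℂ) * ((2 ^ (l + 2)).descFactorial n : ℂ) *
    (z - w l) ^ (2 ^ (l + 2) - n)

/-- bound for the term -/
noncomputable def b (n l : ℕ) (D : ℝ) : ℝ :=
  c l / ((2 ^ (l + 2)) ! : ℝ) * ((2 ^ (l + 2)).descFactorial n : ℝ) * D ^ (2 ^ (l + 2) - n)

noncomputable def F (n : ℕ) (z : ℂ) : ℂ := ∑' l, T w n l z

noncomputable def eps (B : ℝ) (l : ℕ) : ℝ :=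
  (B * ((l : ℝ) + 1) ^ 2) ^ (2 ^ (l + 2)) / ((2 ^ l) ! : ℝ)

lemma T_norm (n l : ℕ) (z : ℂ) : ‖T w n l z‖ = b n l ‖z - w l‖ := by
  unfold T b
  rw [norm_mul, norm_mul, norm_div, norm_pow, Complex.norm_real, Complex.norm_natCast,
    Complex.norm_natCast, Real.norm_of_nonneg (c_pos l).le]

lemma b_nonneg (n l : ℕ) {D : ℝ} (hD : 0 ≤ D) : 0 ≤ b n l D := by
  unfold b
  have := c_pos l
  positivity

lemma b_mono (n l : ℕ) {D D' : ℝ} (hD : 0 ≤ D) (h : D ≤ D') : b n l D ≤ b n l D' := by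
  unfold b
  have := c_pos l
  gcongr

lemma b_eq (n l : ℕ) (h : n ≤ 2 ^ (l + 2)) (D : ℝ) :
    b n l D = c l * D ^ (2 ^ (l + 2) - n) / ((2 ^ (l + 2) - n) ! : ℝ) := by
  unfold b
  have h1 : ((2 ^ (l + 2) - n) ! : ℝ) * ((2 ^ (l + 2)).descFactorial n : ℝ) =
      ((2 ^ (l + 2)) ! : ℝ) := by exact_mod_cast Nat.factorial_mul_descFactorial h
  have h2 : ((2 ^ (l + 2)) ! : ℝ) ≠ 0 := by positivity
  have h3 : ((2 ^ (l + 2) - n) ! : ℝ) ≠ 0 := by positivity
  field_simp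
  rw [← h1]; ring

lemma eps_nonneg {B : ℝ} (hB : 0 ≤ B) (l : ℕ) : 0 ≤ eps B l := by
  unfold eps; positivity

lemma eps_summable {B : ℝ} (hB : 0 ≤ B) : Summable (eps B) := by
  have h1 : Tendsto (fun l : ℕ => 2 * B ^ 4 * (2 * (((l + 1 : ℕ) : ℝ) ^ 8 / 2 ^ (l + 1))) +
      2 * (((l + 1 : ℕ) : ℝ) ^ 1 / 2 ^ (l + 1))) atTop (𝓝 (2 * B ^ 4 * (2 * 0) + 2 * 0)) := by
    have h8 := (tendsto_pow_const_div_const_pow_of_one_lt 8 (one_lt_two : (1 : ℝ) < 2)).comp
      (tendsto_add_atTop_nat 1)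
    have h1 := (tendsto_pow_const_div_const_pow_of_one_lt 1 (one_lt_two : (1 : ℝ) < 2)).comp
      (tendsto_add_atTop_nat 1)
    exact ((h8.const_mul 2).const_mul _).add (h1.const_mul 2)
  have h2 : ∀ᶠ l : ℕ in atTop, 2 * B ^ 4 * (2 * (((l + 1 : ℕ) : ℝ) ^ 8 / 2 ^ (l + 1))) +
      2 * (((l + 1 : ℕ) : ℝ) ^ 1 / 2 ^ (l + 1)) < 1 / 2 := by
    apply h1.eventually_lt_const
    norm_num
  have h3 : ∀ᶠ l : ℕ in atTop, eps B l ≤ Real.exp (-(l : ℝ)) := by
    filter_upwards [h2] with l hl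
    have hN : (0 : ℝ) < 2 ^ l := by positivity
    have hl' : 2 * (B ^ 4 * ((l : ℝ) + 1) ^ 8) + l ≤ 2 ^ l / 2 := by
      have e1 : (2 : ℝ) ^ (l + 1) = 2 * 2 ^ l := by rw [pow_succ]; ring
      rw [e1] at hl
      push_cast at hl
      have e2 : 2 * B ^ 4 * (2 * (((l : ℝ) + 1) ^ 8 / (2 * 2 ^ l))) +
        2 * (((l : ℝ) + 1) ^ 1 / (2 * 2 ^ l)) =
        (2 * (B ^ 4 * ((l : ℝ) + 1) ^ 8) + (l + 1)) / 2 ^ l := by
        field_simp
      rw [e2, div_lt_iff₀ hN] at hl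
      linarith
    obtain ⟨x, hx⟩ : ∃ x : ℝ, x = B ^ 4 * ((l : ℝ) + 1) ^ 8 := ⟨_, rfl⟩
    rw [← hx] at hl'
    have hx0 : 0 ≤ x := by rw [hx]; positivity
    have h4 : (2 * x) ^ (2 ^ l) / ((2 ^ l) ! : ℝ) ≤ Real.exp (2 * x) :=
      Real.pow_div_factorial_le_exp (2 * x) (by positivity) (2 ^ l)
    have h5 : eps B l = (2 * x) ^ (2 ^ l) / ((2 ^ l) ! : ℝ) * (1 / 2) ^ (2 ^ l) := by
      unfold eps
      have : (B * ((l : ℝ) + 1) ^ 2) ^ (2 ^ (l + 2)) = x ^ (2 ^ l) := by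
        rw [hx, pow_add, pow_mul']
        norm_num
        ring
      rw [this, mul_pow, one_div, inv_pow]
      field_simp
    have h6 : ((1 : ℝ) / 2) ^ (2 ^ l) = Real.exp (-(2 ^ l * Real.log 2)) := by
      rw [Real.exp_neg, mul_comm, Real.exp_mul, Real.exp_log two_pos]
      rw [one_div, inv_pow]
      norm_cast
    have h7 : (1 : ℝ) / 2 ≤ Real.log 2 := by linarith [Real.log_two_gt_d9]
    rw [h5, h6]
    calc (2 * x) ^ (2 ^ l) / ((2 ^ l) ! : ℝ) * Real.exp (-(2 ^ l * Real.log 2))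
        ≤ Real.exp (2 * x) * Real.exp (-(2 ^ l * Real.log 2)) := by gcongr
      _ = Real.exp (2 * x + -(2 ^ l * Real.log 2)) := by rw [Real.exp_add]
      _ ≤ Real.exp (-(l : ℝ)) := by
        apply Real.exp_le_exp.mpr
        have : (2 : ℝ) ^ l * (1 / 2) ≤ 2 ^ l * Real.log 2 := by gcongr
        linarith
  have h4 : Summable (fun l : ℕ => Real.exp (-(l : ℝ))) := by
    have := Real.summable_exp_neg_nat
    simpa using this
  refine Summable.of_norm_bounded_eventually_nat h4 ?_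
  filter_upwards [h3] with l hl
  rwa [Real.norm_of_nonneg (eps_nonneg hB l)]

lemma key {n k l : ℕ} (hkl : k < l) (hn : n ≤ 2 ^ (k + 2)) {A δ : ℝ} (hA : 1 ≤ A)
    (hδ : 0 < δ) (hδ1 : δ ≤ 1) :
    b n l (A * ((l : ℝ) + 1)) ≤
      eps (A / δ) l * (c k * δ ^ (2 ^ (k + 2) - n) / ((2 ^ (k + 2) - n) ! : ℝ)) := by
  obtain ⟨j, hj⟩ : ∃ j, j = 2 ^ (k + 2) - n := ⟨_, rfl⟩
  have hpow : 2 ^ (k + 2) ≤ 2 ^ (l + 1) := Nat.pow_le_pow_right (by norm_num) (by omega)
  have hl2 : 2 ^ (l + 2) = 2 ^ (l + 1) + 2 ^ (l + 1) := by rw [pow_succ 2 (l + 1)]; ring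
  have hnl : n ≤ 2 ^ (l + 2) := by omega
  rw [b_eq n l hnl, ← hj]
  obtain ⟨q, hq⟩ : ∃ q, q = 2 ^ (l + 1) - 2 ^ (k + 2) := ⟨_, rfl⟩
  have hp : 2 ^ (l + 2) - n = (2 ^ (l + 1) + q) + j := by omega
  have f1 : (2 ^ (l + 1)) ! * q ! * j ! ≤ (2 ^ (l + 2) - n) ! := by
    rw [hp]
    calc (2 ^ (l + 1)) ! * q ! * j ! ≤ (2 ^ (l + 1) + q) ! * j ! := by
          gcongr
          exact Nat.le_of_dvd (Nat.factorial_pos _) (Nat.factorial_mul_factorial_dvd_factorial_add _ _)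
      _ ≤ ((2 ^ (l + 1) + q) + j) ! :=
          Nat.le_of_dvd (Nat.factorial_pos _) (Nat.factorial_mul_factorial_dvd_factorial_add _ _)
  have f2 : (2 ^ l) ! ≤ (2 ^ (k + 1)) ! * q ! := by
    rcases Nat.lt_or_ge (k + 1) l with h | h
    · have : 2 ^ (k + 2) ≤ 2 ^ l := Nat.pow_le_pow_right (by norm_num) (by omega)
      have h2 : 2 ^ (l + 1) = 2 ^ l + 2 ^ l := by rw [pow_succ]; ring
      calc (2 ^ l) ! ≤ q ! := Nat.factorial_le (by omega)
        _ ≤ (2 ^ (k + 1)) ! * q ! := Nat.le_mul_of_pos_left _ (Nat.factorial_pos _)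
    · have : l = k + 1 := by omega
      subst this
      exact Nat.le_mul_of_pos_right _ (Nat.factorial_pos _)
  have f1' : ((2 ^ (l + 1)) ! : ℝ) * (q ! : ℝ) * (j ! : ℝ) ≤ ((2 ^ (l + 2) - n) ! : ℝ) := by
    exact_mod_cast f1
  have f2' : ((2 ^ l) ! : ℝ) ≤ ((2 ^ (k + 1)) ! : ℝ) * (q ! : ℝ) := by exact_mod_cast f2
  have hl0 : (0 : ℝ) ≤ (l : ℝ) := Nat.cast_nonneg l
  have hD : 1 ≤ A * ((l : ℝ) + 1) := by nlinarith
  have hjm : j ≤ 2 ^ (l + 2) := by omega
  have g1 : (A * ((l : ℝ) + 1)) ^ (2 ^ (l + 2) - n) ≤ (A * ((l : ℝ) + 1)) ^ (2 ^ (l + 2)) :=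
    pow_le_pow_right₀ hD (Nat.sub_le _ _)
  have g2 : δ ^ (2 ^ (l + 2)) ≤ δ ^ j := pow_le_pow_of_le_one hδ.le hδ1 hjm
  have g3 : ((2 ^ (k + 1)) ! : ℝ) ≤ c k := by
    unfold c
    have : (1 : ℝ) ≤ ((k : ℝ) + 1) ^ (2 ^ (k + 2)) := one_le_pow₀ (by
      have : (0 : ℝ) ≤ (k : ℝ) := Nat.cast_nonneg k
      linarith)
    exact le_mul_of_one_le_right (by positivity) this
  have hfac1 : (0 : ℝ) < ((2 ^ (l + 1)) ! : ℝ) := by positivity
  have hfacq : (0 : ℝ) < (q ! : ℝ) := by positivity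
  have hfacj : (0 : ℝ) < (j ! : ℝ) := by positivity
  have hfacl : (0 : ℝ) < ((2 ^ l) ! : ℝ) := by positivity
  have hfack : (0 : ℝ) < ((2 ^ (k + 1)) ! : ℝ) := by positivity
  obtain ⟨P, hP⟩ : ∃ P : ℝ, P = (A * ((l : ℝ) + 1)) ^ (2 ^ (l + 2)) := ⟨_, rfl⟩
  rw [← hP] at g1
  have hP0 : 0 < P := by rw [hP]; positivity
  obtain ⟨L, hL⟩ : ∃ L : ℝ, L = ((l : ℝ) + 1) ^ (2 ^ (l + 2)) := ⟨_, rfl⟩
  have hL0 : 0 < L := by rw [hL]; positivity
  have hcl : c l = ((2 ^ (l + 1)) ! : ℝ) * L := by rw [hL]; rfl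
  calc c l * (A * ((l : ℝ) + 1)) ^ (2 ^ (l + 2) - n) / ((2 ^ (l + 2) - n) ! : ℝ)
      ≤ c l * P / (((2 ^ (l + 1)) ! : ℝ) * (q ! : ℝ) * (j ! : ℝ)) := by
        have := (c_pos l).le
        gcongr
    _ = L * P / ((q ! : ℝ) * (j ! : ℝ)) := by
        rw [hcl]
        field_simp
    _ ≤ L * P / ((2 ^ l) ! : ℝ) * (((2 ^ (k + 1)) ! : ℝ) / (j ! : ℝ)) := by
        rw [div_mul_div_comm, div_le_div_iff₀ (by positivity) (by positivity)]
        have : L * P * (((2 ^ l) ! : ℝ) * (j ! : ℝ)) ≤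
            L * P * ((((2 ^ (k + 1)) ! : ℝ) * (q ! : ℝ)) * (j ! : ℝ)) := by gcongr
        calc L * P * (((2 ^ l) ! : ℝ) * (j ! : ℝ)) ≤ _ := this
          _ = L * P * ((2 ^ (k + 1)) ! : ℝ) * ((q ! : ℝ) * (j ! : ℝ)) := by ring
    _ = eps (A / δ) l * (((2 ^ (k + 1)) ! : ℝ) * δ ^ (2 ^ (l + 2)) / (j ! : ℝ)) := by
        unfold eps
        have e1 : (A / δ * ((l : ℝ) + 1) ^ 2) ^ (2 ^ (l + 2)) * δ ^ (2 ^ (l + 2)) = L * P := by
          rw [← mul_pow, hL, hP, ← mul_pow]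
          congr 1
          field_simp
        rw [← e1]
        ring
    _ ≤ eps (A / δ) l * (c k * δ ^ j / (j ! : ℝ)) := by
        have := eps_nonneg (B := A / δ) (by positivity) l
        have := (c_pos k).le
        gcongr

variable {w} {C : ℝ} (hw : ∀ k, ‖w k‖ ≤ C + k)
include hw

lemma dist_le {R : ℝ} (hC : 0 ≤ C) (hR : 0 ≤ R) {z : ℂ} (hz : ‖z‖ ≤ R) (l : ℕ) :
    ‖z - w l‖ ≤ (R + C + 1) * ((l : ℝ) + 1) := by
  have h1 := norm_sub_le z (w l)
  have h2 := hw l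
  have h3 : (0 : ℝ) ≤ (l : ℝ) := Nat.cast_nonneg l
  nlinarith [mul_nonneg hR h3, mul_nonneg hC h3]

lemma T_bound {n k l : ℕ} (hkl : k < l) (hn : n ≤ 2 ^ (k + 2)) {R δ : ℝ} (hC : 0 ≤ C)
    (hR : 0 ≤ R) (hδ : 0 < δ) (hδ1 : δ ≤ 1) {z : ℂ} (hz : ‖z‖ ≤ R) :
    ‖T w n l z‖ ≤ eps ((R + C + 1) / δ) l *
      (c k * δ ^ (2 ^ (k + 2) - n) / ((2 ^ (k + 2) - n) ! : ℝ)) := by
  rw [T_norm]
  exact (b_mono n l (norm_nonneg _) (dist_le hw hC hR hz l)).trans
    (key hkl hn (by linarith) hδ hδ1)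

omit hw in
lemma b_summable (n : ℕ) {R : ℝ} (hC : 0 ≤ C) (hR : 0 ≤ R) :
    Summable (fun l : ℕ => b n l ((R + C + 1) * ((l : ℝ) + 1))) := by
  have hn : n ≤ 2 ^ (n + 2) := by
    have := Nat.lt_two_pow_self (n := n)
    have h2 : 2 ^ n ≤ 2 ^ (n + 2) := Nat.pow_le_pow_right (by norm_num) (by omega)
    omega
  have hs := (eps_summable (B := (R + C + 1) / 1) (by positivity)).mul_right
    (c n * (1 : ℝ) ^ (2 ^ (n + 2) - n) / ((2 ^ (n + 2) - n) ! : ℝ))
  refine Summable.of_norm_bounded_eventually_nat hs ?_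
  filter_upwards [eventually_gt_atTop n] with l hl
  rw [Real.norm_of_nonneg (b_nonneg n l (by positivity))]
  exact key hl hn (by linarith) one_pos le_rfl

lemma T_summable (n : ℕ) (hC : 0 ≤ C) (z : ℂ) : Summable (fun l => T w n l z) := by
  refine Summable.of_norm_bounded (b_summable n hC (norm_nonneg z)) ?_
  intro l
  rw [T_norm]
  exact b_mono n l (norm_nonneg _) (dist_le hw hC (norm_nonneg z) le_rfl l)

omit hw in
lemma T_hasDerivAt (n l : ℕ) (z : ℂ) : HasDerivAt (T w n l) (T w (n + 1) l z) z := by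
  unfold T
  have h1 : HasDerivAt (fun z : ℂ => (z - w l) ^ (2 ^ (l + 2) - n))
      (((2 ^ (l + 2) - n : ℕ) : ℂ) * (z - w l) ^ (2 ^ (l + 2) - n - 1) * 1) z :=
    ((hasDerivAt_id z).sub_const (w l)).pow _
  have h2 := h1.const_mul ((c l : ℂ) / ((2 ^ (l + 2)) ! : ℂ) *
    ((2 ^ (l + 2)).descFactorial n : ℂ))
  have h3 : (c l : ℂ) / ((2 ^ (l + 2)) ! : ℂ) * ((2 ^ (l + 2)).descFactorial (n + 1) : ℂ) *
      (z - w l) ^ (2 ^ (l + 2) - (n + 1)) =
      (c l : ℂ) / ((2 ^ (l + 2)) ! : ℂ) * ((2 ^ (l + 2)).descFactorial n : ℂ) *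
      (((2 ^ (l + 2) - n : ℕ) : ℂ) * (z - w l) ^ (2 ^ (l + 2) - n - 1) * 1) := by
    rw [Nat.descFactorial_succ, Nat.cast_mul, Nat.sub_sub]
    ring
  rw [h3]
  exact h2

lemma F_hasDerivAt (n : ℕ) (hC : 0 ≤ C) (z : ℂ) : HasDerivAt (F w n) (F w (n + 1) z) z := by
  have hR : (0 : ℝ) ≤ ‖z‖ + 1 := by positivity
  refine hasDerivAt_tsum_of_isPreconnected (b_summable (n + 1) hC hR)
    (Metric.isOpen_ball (x := (0 : ℂ)) (ε := ‖z‖ + 1)) (convex_ball _ _).isPreconnected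
    (fun l y _ => T_hasDerivAt n l y) ?_ (y₀ := z) ?_ (T_summable hw n hC z) ?_
  · intro l y hy
    rw [T_norm]
    have hy' : ‖y‖ ≤ ‖z‖ + 1 := by
      rw [mem_ball_zero_iff] at hy; exact hy.le
    exact b_mono (n + 1) l (norm_nonneg _) (dist_le hw hC hR hy' l)
  · rw [mem_ball_zero_iff]; linarith
  · rw [mem_ball_zero_iff]; linarith

lemma iteratedDeriv_F (hC : 0 ≤ C) (n : ℕ) : iteratedDeriv n (F w 0) = F w n := by
  induction n with
  | zero => simp
  | succ n ih =>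
    rw [iteratedDeriv_succ, ih]
    funext z
    exact (F_hasDerivAt hw n hC z).deriv

lemma F_approx {R δ η : ℝ} (hC : 0 ≤ C) (hR : 0 ≤ R) (hδ : 0 < δ) (hδ1 : δ ≤ 1) (hη : 0 < η) :
    ∀ᶠ k : ℕ in atTop, ∀ n : ℕ, 2 ^ (k + 1) < n → n ≤ 2 ^ (k + 2) → ∀ z : ℂ, ‖z‖ ≤ R →
      ‖F w n z - T w n k z‖ ≤
        η * (c k * δ ^ (2 ^ (k + 2) - n) / ((2 ^ (k + 2) - n) ! : ℝ)) := by
  have hB : 0 ≤ (R + C + 1) / δ := by positivity
  have hs := eps_summable hB
  have h1 := (tendsto_sum_nat_add (eps ((R + C + 1) / δ))).comp (tendsto_add_atTop_nat 1)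
  filter_upwards [h1.eventually_lt_const hη] with k hk n hn1 hn2 z hz
  set Q : ℝ := c k * δ ^ (2 ^ (k + 2) - n) / ((2 ^ (k + 2) - n) ! : ℝ) with hQ
  have hQ0 : 0 ≤ Q := by
    have := c_pos k
    positivity
  have h2 : F w n z = T w n k z + ∑' i, T w n (i + (k + 1)) z := by
    unfold F
    rw [← (T_summable hw n hC z).sum_add_tsum_nat_add (k + 1), Finset.sum_range_succ]
    congr 1
    rw [Finset.sum_eq_zero, zero_add]
    intro i hi
    have hi' : i < k := Finset.mem_range.mp hi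
    have : 2 ^ (i + 2) ≤ 2 ^ (k + 1) := Nat.pow_le_pow_right (by norm_num) (by omega)
    unfold T
    rw [Nat.descFactorial_of_lt (by omega)]
    simp
  rw [h2, add_sub_cancel_left]
  have hs1 : Summable (fun i => eps ((R + C + 1) / δ) (i + (k + 1))) :=
    (summable_nat_add_iff (k + 1)).mpr hs
  have h3 : ∀ i, ‖T w n (i + (k + 1)) z‖ ≤ eps ((R + C + 1) / δ) (i + (k + 1)) * Q := by
    intro i
    exact T_bound hw (by omega) hn2 hC hR hδ hδ1 hz
  have h4 := tsum_of_norm_bounded (hs1.mul_right Q).hasSum h3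
  refine h4.trans ?_
  rw [tsum_mul_right]
  have h5 : ∑' i, eps ((R + C + 1) / δ) (i + (k + 1)) < η := hk
  exact mul_le_mul_of_nonneg_right h5.le hQ0

omit hw in
lemma T_norm' {n k : ℕ} (hn : n ≤ 2 ^ (k + 2)) (z : ℂ) :
    ‖T w n k z‖ = c k * ‖z - w k‖ ^ (2 ^ (k + 2) - n) / ((2 ^ (k + 2) - n) ! : ℝ) := by
  rw [T_norm, b_eq n k hn]

lemma F_big {R δ : ℝ} (hC : 0 ≤ C) (hR : 0 ≤ R) (hδ : 0 < δ) (hδ1 : δ ≤ 1) (M : ℝ) :
    ∀ᶠ k : ℕ in atTop, ∀ n : ℕ, 2 ^ (k + 1) < n → n ≤ 2 ^ (k + 2) → ∀ z : ℂ, ‖z‖ ≤ R →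
      δ ≤ ‖z - w k‖ → M ≤ ‖F w n z‖ := by
  have h1 : Tendsto (fun k : ℕ => 1 / 2 * (((k : ℝ) + 1) * δ)) atTop atTop := by
    refine Tendsto.const_mul_atTop (by norm_num) ?_
    refine Tendsto.atTop_mul_const hδ ?_
    exact tendsto_atTop_add_const_right _ _ tendsto_natCast_atTop_atTop
  filter_upwards [F_approx hw hC hR hδ hδ1 (η := 1 / 2) (by norm_num),
    h1.eventually_ge_atTop (max M 1)] with k hk hM n hn1 hn2 z hz hzd
  obtain ⟨j, hj⟩ : ∃ j, j = 2 ^ (k + 2) - n := ⟨_, rfl⟩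
  have h2 := hk n hn1 hn2 z hz
  have h3 := T_norm' (w := w) hn2 z
  rw [← hj] at h2 h3
  have hfj : (0 : ℝ) < (j ! : ℝ) := by positivity
  have h4 : c k * δ ^ j / (j ! : ℝ) ≤ ‖T w n k z‖ := by
    rw [h3]
    have := (c_pos k).le
    gcongr
  have h5 : ‖T w n k z‖ - ‖F w n z - T w n k z‖ ≤ ‖F w n z‖ := by
    have := norm_sub_norm_le (T w n k z) (T w n k z - F w n z)
    rw [sub_sub_cancel, norm_sub_rev (T w n k z) (F w n z)] at this
    exact this
  have hjm : j ≤ 2 ^ (k + 1) := by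
    have : 2 ^ (k + 2) = 2 ^ (k + 1) + 2 ^ (k + 1) := by rw [pow_succ 2 (k + 1)]; ring
    omega
  have h6 : (j ! : ℝ) ≤ ((2 ^ (k + 1)) ! : ℝ) := by exact_mod_cast Nat.factorial_le hjm
  have hjm2 : j ≤ 2 ^ (k + 2) := by omega
  have h7 : (((k : ℝ) + 1) * δ) ^ (2 ^ (k + 2)) ≤ c k * δ ^ j / (j ! : ℝ) := by
    rw [mul_pow, le_div_iff₀ hfj]
    unfold c
    have h8 : δ ^ (2 ^ (k + 2)) ≤ δ ^ j := pow_le_pow_of_le_one hδ.le hδ1 hjm2
    calc ((k : ℝ) + 1) ^ 2 ^ (k + 2) * δ ^ 2 ^ (k + 2) * (j ! : ℝ)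
        ≤ ((k : ℝ) + 1) ^ 2 ^ (k + 2) * δ ^ j * ((2 ^ (k + 1)) ! : ℝ) := by gcongr
      _ = _ := by ring
  have hM1 : 1 ≤ 1 / 2 * (((k : ℝ) + 1) * δ) := (le_max_right _ _).trans hM
  have hM2 : M ≤ 1 / 2 * (((k : ℝ) + 1) * δ) := (le_max_left _ _).trans hM
  have h9 : ((k : ℝ) + 1) * δ ≤ (((k : ℝ) + 1) * δ) ^ (2 ^ (k + 2)) :=
    le_self_pow₀ (by linarith) (by positivity)
  linarith

end construct

lemma index_exists {n : ℕ} (hn : 3 ≤ n) : ∃ k, 2 ^ (k + 1) < n ∧ n ≤ 2 ^ (k + 2) := by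
  obtain ⟨L, hL1, hL2⟩ : ∃ L, 2 ^ L ≤ n - 1 ∧ n - 1 < 2 ^ (L + 1) :=
    ⟨Nat.log 2 (n - 1), Nat.pow_log_le_self 2 (by omega), Nat.lt_pow_succ_log_self (by norm_num) _⟩
  have hL : 1 ≤ L := by
    by_contra h
    have : L = 0 := by omega
    subst this
    omega
  refine ⟨L - 1, ?_, ?_⟩
  · rw [Nat.sub_add_cancel hL]; omega
  · have : L - 1 + 2 = L + 1 := by omega
    rw [this]; omega

/-- a sequence in the closed set `S` visiting each term of a dense sequence infinitely often, with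
linear growth -/
lemma exists_centres {S : Set ℂ} (hS : S.Nonempty) : ∃ (w : ℕ → ℂ) (C : ℝ), 0 ≤ C ∧
    (∀ k, ‖w k‖ ≤ C + k) ∧ (∀ k, w k ∈ S) ∧
    ∀ z ∈ S, ∀ N : Set ℂ, IsOpen N → z ∈ N → ∃ v ∈ N, ∃ κ : ℕ → ℕ, StrictMono κ ∧
      ∀ t, w (κ t) = v := by
  have : Nonempty S := hS.to_subtype
  let u : ℕ → S := TopologicalSpace.denseSeq S
  refine ⟨fun k => if ‖(u (Nat.unpair k).1 : ℂ)‖ ≤ ‖(u 0 : ℂ)‖ + k then
    (u (Nat.unpair k).1 : ℂ) else (u 0 : ℂ), ‖(u 0 : ℂ)‖, norm_nonneg _, ?_, ?_, ?_⟩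
  · intro k
    dsimp only
    split_ifs with h
    · exact h
    · have : (0 : ℝ) ≤ (k : ℝ) := Nat.cast_nonneg k
      linarith
  · intro k
    dsimp only
    split_ifs with h
    · exact (u _).2
    · exact (u 0).2
  · intro z hz N hN hzN
    have hd : DenseRange u := TopologicalSpace.denseRange_denseSeq S
    obtain ⟨i, hi⟩ := hd.exists_mem_open (hN.preimage continuous_subtype_val) ⟨⟨z, hz⟩, hzN⟩
    obtain ⟨T0, hT0⟩ := exists_nat_ge (‖(u i : ℂ)‖)
    refine ⟨(u i : ℂ), hi, fun t => Nat.pair i (t + T0), ?_, ?_⟩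
    · intro a b hab
      exact Nat.pair_lt_pair_right i (by omega)
    · intro t
      dsimp only
      rw [Nat.unpair_pair]
      dsimp only
      rw [if_pos]
      have h1 : T0 ≤ Nat.pair i (t + T0) := (Nat.le_add_left _ _).trans (Nat.right_le_pair _ _)
      have h2 : (T0 : ℝ) ≤ (Nat.pair i (t + T0) : ℝ) := by exact_mod_cast h1
      have := norm_nonneg (u 0 : ℂ)
      linarith

/-- The key theorem: every open subset of the plane other than the plane itself is the set of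
MacLane points of an entire function, relative to every open `G` containing it. -/
theorem exists_entire (U : Set ℂ) (hU : IsOpen U) (hne : (Uᶜ : Set ℂ).Nonempty) :
    ∃ f : ℂ → ℂ, Differentiable ℂ f ∧ ∀ G : Set ℂ, U ⊆ G → macLane G f = U := by
  obtain ⟨w, C, hC, hw, hwS, hdense⟩ := exists_centres hne
  refine ⟨F w 0, fun z => (F_hasDerivAt hw 0 hC z).differentiableAt, ?_⟩
  intro G hUG
  have hF : ∀ n, Differentiable ℂ (F w n) := fun n z =>
    (F_hasDerivAt hw n hC z).differentiableAt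
  ext z
  constructor
  · rintro ⟨hzG, N, hN, hzN, hNG, hnorm⟩
    by_contra hzU
    obtain ⟨v, hvN, κ, hκ, hκw⟩ := hdense z hzU N hN hzN
    obtain ⟨r', hr', hball⟩ := Metric.nhds_basis_closedBall.mem_iff.mp (hN.mem_nhds hvN)
    set r : ℝ := min r' 1 with hr
    have hr0 : 0 < r := lt_min hr' one_pos
    have hr1 : r ≤ 1 := min_le_right _ _
    have hball' : Metric.closedBall v r ⊆ N :=
      (Metric.closedBall_subset_closedBall (min_le_left _ _)).trans hball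
    set R : ℝ := ‖v‖ + 1 with hRdef
    have hR : 0 ≤ R := by positivity
    have hballR : ∀ y ∈ Metric.closedBall v r, ‖y‖ ≤ R := by
      intro y hy
      rw [mem_closedBall_iff_norm] at hy
      have := norm_le_norm_add_norm_sub' y v
      linarith
    obtain ⟨e, he, hcase⟩ := hnorm (fun t => F w (2 ^ (κ t + 2) - 1)) (fun t =>
      ⟨2 ^ (κ t + 2) - 1, (iteratedDeriv_F hw hC _).symm⟩)
    have hKto : Tendsto (fun i => κ (e i)) atTop atTop :=
      hκ.tendsto_atTop.comp he.tendsto_atTop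
    have hn1 : ∀ k : ℕ, 2 ^ (k + 1) < 2 ^ (k + 2) - 1 := by
      intro k
      have h1 : 2 ^ (k + 2) = 2 ^ k * 4 := by rw [pow_add]; norm_num
      have h2 : 2 ^ (k + 1) = 2 ^ k * 2 := by rw [pow_succ]
      have := Nat.one_le_two_pow (n := k)
      omega
    have hcompact : IsCompact (Metric.closedBall v r) := isCompact_closedBall v r
    rcases hcase with ⟨g, hg, hgK⟩ | hinf
    · -- finite limit: contradiction at the point `v + r`
      have hp : v + (r : ℂ) ∈ Metric.closedBall v r := by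
        rw [mem_closedBall_iff_norm]
        simp [abs_of_pos hr0]
      have h1 := (hgK _ hball' hcompact).tendsto_at hp
      have h2 := h1.norm
      have h3 : ∀ᶠ i in atTop, ‖F w (2 ^ (κ (e i) + 2) - 1) (v + r)‖ < ‖g (v + r)‖ + 1 :=
        h2.eventually_lt_const (by linarith)
      have h4 := hKto.eventually (F_big hw hC hR hr0 hr1 (‖g (v + r)‖ + 1))
      obtain ⟨i, hi3, hi4⟩ := (h3.and h4).exists
      have h5 := hi4 (2 ^ (κ (e i) + 2) - 1) (hn1 _) (Nat.sub_le _ _) (v + r) (hballR _ hp) (by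
        rw [hκw]; simp [abs_of_pos hr0])
      linarith
    · -- infinite limit: maximum modulus
      have h3 := hinf _ hball' hcompact 1
      have h4 := hKto.eventually (F_approx hw hC hR hr0 hr1 (η := 1 / 4) (by norm_num))
      obtain ⟨i, hi3, hi4⟩ := (h3.and h4).exists
      set k := κ (e i) with hk
      have hwk : w k = v := hκw _
      have h5 := hi4 (2 ^ (k + 2) - 1) (hn1 _) (Nat.sub_le _ _)
      have hsub : 2 ^ (k + 2) - (2 ^ (k + 2) - 1) = 1 := by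
        have := Nat.one_le_two_pow (n := k + 2)
        omega
      rw [hsub] at h5
      have hT : ∀ y : ℂ, ‖T w (2 ^ (k + 2) - 1) k y‖ = c k * ‖y - v‖ := by
        intro y
        rw [T_norm' (Nat.sub_le _ _), hsub, hwk]
        simp
      have hck := c_pos k
      have hcr : 0 < c k * r := mul_pos hck hr0
      simp only [pow_one, Nat.factorial_one, Nat.cast_one, div_one] at h5
      have hsph : ∀ y ∈ Metric.sphere v r, 3 / 4 * (c k * r) ≤ ‖F w (2 ^ (k + 2) - 1) y‖ := by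
        intro y hy
        have h6 := h5 y (hballR y (Metric.sphere_subset_closedBall hy))
        have h7 := hT y
        rw [mem_sphere_iff_norm.mp hy] at h7
        have := norm_sub_norm_le (T w (2 ^ (k + 2) - 1) k y)
          (T w (2 ^ (k + 2) - 1) k y - F w (2 ^ (k + 2) - 1) y)
        rw [sub_sub_cancel, norm_sub_rev (T w (2 ^ (k + 2) - 1) k y)] at this
        linarith
      have hcen : ‖F w (2 ^ (k + 2) - 1) v‖ ≤ 1 / 4 * (c k * r) := by
        have h6 := h5 v (hballR v (Metric.mem_closedBall_self hr0.le))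
        have h7 := hT v
        rw [sub_self, norm_zero, mul_zero, norm_eq_zero] at h7
        rwa [h7, sub_zero] at h6
      have hne0 : ∀ y ∈ Metric.closedBall v r, F w (2 ^ (k + 2) - 1) y ≠ 0 := by
        intro y hy h0
        have := hi3 y hy
        rw [h0, norm_zero] at this
        linarith
      have hdcc : DiffContOnCl ℂ (fun y => (F w (2 ^ (k + 2) - 1) y)⁻¹) (Metric.ball v r) := by
        apply DifferentiableOn.diffContOnCl
        rw [closure_ball v hr0.ne']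
        intro y hy
        exact ((hF _ y).inv (hne0 y hy)).differentiableWithinAt
      have hmax := Complex.norm_le_of_forall_mem_frontier_norm_le (C := (3 / 4 * (c k * r))⁻¹)
        (Metric.isBounded_ball (x := v) (r := r)) hdcc (by
          intro y hy
          rw [frontier_ball v hr0.ne'] at hy
          rw [norm_inv]
          exact inv_anti₀ (by positivity) (hsph y hy)) (z := v)
        (subset_closure (Metric.mem_ball_self hr0))
      rw [norm_inv] at hmax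
      have hFv : 0 < ‖F w (2 ^ (k + 2) - 1) v‖ :=
        norm_pos_iff.mpr (hne0 v (Metric.mem_closedBall_self hr0.le))
      have := (inv_le_inv₀ hFv (by positivity)).mp hmax
      linarith
  · intro hzU
    refine ⟨hUG hzU, U, hU, hzU, hUG, ?_⟩
    intro s hs
    choose ν hν using hs
    by_cases hb : Tendsto ν cofinite atTop
    · -- the indices tend to infinity
      rw [Nat.cofinite_eq_atTop] at hb
      refine ⟨id, strictMono_id, Or.inr ?_⟩
      intro K hK hKc M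
      have hKb : ∃ R : ℝ, 0 ≤ R ∧ ∀ y ∈ K, ‖y‖ ≤ R := by
        obtain ⟨R, hR⟩ := hKc.isBounded.exists_norm_le
        exact ⟨max R 0, le_max_right _ _, fun y hy => (hR y hy).trans (le_max_left _ _)⟩
      obtain ⟨R, hR, hKR⟩ := hKb
      obtain ⟨δ', hδ', hδK⟩ := hKc.exists_cthickening_subset_open hU hK
      set δ : ℝ := min δ' 1 with hδdef
      have hδ : 0 < δ := lt_min hδ' one_pos
      have hδ1 : δ ≤ 1 := min_le_right _ _
      have hdist : ∀ y ∈ K, ∀ k, δ ≤ ‖y - w k‖ := by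
        intro y hy k
        by_contra hcon
        push Not at hcon
        have h1 : w k ∈ Metric.cthickening δ' K := by
          apply Metric.mem_cthickening_of_dist_le (w k) y δ' K hy
          rw [dist_comm, dist_eq_norm]
          exact hcon.le.trans (min_le_left _ _)
        exact hwS k (hδK h1)
      obtain ⟨k0, hk0⟩ := eventually_atTop.mp (F_big hw hC hR hδ hδ1 M)
      have hbig : ∀ n, 2 ^ (k0 + 2) + 3 ≤ n → ∀ y ∈ K, M ≤ ‖F w n y‖ := by
        intro n hn y hy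
        have hp0 := Nat.one_le_two_pow (n := k0 + 2)
        obtain ⟨k, hk1, hk2⟩ := index_exists (n := n) (by omega)
        have hkk : k0 ≤ k := by
          by_contra hlt
          push Not at hlt
          have : 2 ^ (k + 2) ≤ 2 ^ (k0 + 2) := Nat.pow_le_pow_right (by norm_num) (by omega)
          omega
        exact hk0 k hkk n hk1 hk2 y (hKR y hy) (hdist y hy k)
      filter_upwards [hb.eventually_ge_atTop (2 ^ (k0 + 2) + 3)] with i hi y hy
      show M ≤ ‖s (id i) y‖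
      rw [id, hν i, iteratedDeriv_F hw hC]
      exact hbig _ hi y hy
    · -- some index occurs infinitely often
      have h1 : ∃ n, ¬ ∀ᶠ i in cofinite, n ≤ ν i := by
        by_contra hcon
        push Not at hcon
        exact hb (tendsto_atTop.mpr hcon)
      obtain ⟨n, hn⟩ := h1
      have h2 : {i | ν i < n}.Infinite := by
        intro hfin
        apply hn
        rw [eventually_cofinite]
        simpa using hfin
      have h3 : ∃ m < n, {i | ν i = m}.Infinite := by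
        by_contra hcon
        push Not at hcon
        apply h2
        have : {i | ν i < n} = ⋃ m ∈ Finset.range n, {i | ν i = m} := by
          ext i; simp
        rw [this]
        exact Set.Finite.biUnion (Finset.finite_toSet _) (fun m hm => by
          simpa using hcon m (Finset.mem_range.mp hm))
      obtain ⟨m, -, hm⟩ := h3
      obtain ⟨e, he⟩ : ∃ e : ℕ → ℕ, StrictMono e ∧ ∀ i, ν (e i) = m :=
        ⟨Nat.nth (fun i => ν i = m), Nat.nth_strictMono hm, fun i => Nat.nth_mem_of_infinite hm i⟩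
      refine ⟨e, he.1, Or.inl ⟨F w m, (hF m).differentiableOn, ?_⟩⟩
      intro K hK hKc
      have : (fun i => s (e i)) = fun _ => F w m := by
        funext i
        rw [hν (e i), he.2 i, iteratedDeriv_F hw hC]
      rw [this]
      exact (tendstoUniformlyOn_iff_tendstoUniformly_comp_coe.mpr
        (by
          intro u hu
          exact Eventually.of_forall (fun _ x => refl_mem_uniformity hu)))

/-- Q1, with an entire function. -/
theorem question_one (G : Set ℂ) (U : Set ℂ) (hU : IsOpen U) (hUG : U ⊆ G) :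
    ∃ f : ℂ → ℂ, Differentiable ℂ f ∧ macLane G f = U := by
  by_cases hne : (Uᶜ : Set ℂ).Nonempty
  · obtain ⟨f, hf, h⟩ := exists_entire U hU hne
    exact ⟨f, hf, h G hUG⟩
  · rw [Set.not_nonempty_iff_eq_empty, Set.compl_empty_iff] at hne
    subst hne
    have hG : G = Set.univ := Set.univ_subset_iff.mp hUG
    subst hG
    refine ⟨fun _ => 0, differentiable_const 0, ?_⟩
    ext z
    simp only [Set.mem_univ, iff_true]
    refine ⟨Set.mem_univ _, Set.univ, isOpen_univ, Set.mem_univ _, le_rfl, ?_⟩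
    intro s hs
    have hzero : ∀ n : ℕ, iteratedDeriv n (fun _ : ℂ => (0 : ℂ)) = fun _ => 0 := by
      intro n
      induction n with
      | zero => simp
      | succ n ih => rw [iteratedDeriv_succ, ih]; simp
    refine ⟨id, strictMono_id, Or.inl ⟨fun _ => 0, differentiableOn_const 0, ?_⟩⟩
    intro K _ _
    have : (fun i => s (id i)) = fun _ => (fun _ : ℂ => (0 : ℂ)) := by
      funext i
      obtain ⟨n, hn⟩ := hs (id i)
      rw [hn, hzero]
    rw [this]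
    exact (tendstoUniformlyOn_iff_tendstoUniformly_comp_coe.mpr
      (by
        intro u hu
        exact Eventually.of_forall (fun _ x => refl_mem_uniformity hu)))

lemma exists_disconnected (G : Set ℂ) (hG : IsOpen G) (hne : G.Nonempty) :
    ∃ U : Set ℂ, IsOpen U ∧ U ⊆ G ∧ U.Nonempty ∧ ¬ IsPreconnected U := by
  obtain ⟨z, hz⟩ := hne
  obtain ⟨ρ, hρ, hball⟩ := Metric.isOpen_iff.mp hG z hz
  have hnorm : ‖((ρ / 2 : ℝ) : ℂ)‖ = ρ / 2 := by
    rw [Complex.norm_real, Real.norm_of_nonneg (by positivity)]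
  refine ⟨Metric.ball z (ρ / 8) ∪ Metric.ball (z + ((ρ / 2 : ℝ) : ℂ)) (ρ / 8),
    Metric.isOpen_ball.union Metric.isOpen_ball, ?_,
    ⟨z, Or.inl (Metric.mem_ball_self (by positivity))⟩, ?_⟩
  · rintro y (hy | hy)
    · exact hball (Metric.ball_subset_ball (by linarith) hy)
    · apply hball
      rw [mem_ball_iff_norm] at hy ⊢
      have : y - z = (y - (z + ((ρ / 2 : ℝ) : ℂ))) + ((ρ / 2 : ℝ) : ℂ) := by ring
      rw [this]
      have h2 := norm_add_le (y - (z + ((ρ / 2 : ℝ) : ℂ))) ((ρ / 2 : ℝ) : ℂ)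
      linarith
  · intro hpre
    obtain ⟨y, -, hy1, hy2⟩ := hpre (Metric.ball z (ρ / 8))
      (Metric.ball (z + ((ρ / 2 : ℝ) : ℂ)) (ρ / 8)) Metric.isOpen_ball Metric.isOpen_ball
      le_rfl ⟨z, Or.inl (Metric.mem_ball_self (by positivity)), Metric.mem_ball_self (by positivity)⟩
      ⟨z + ((ρ / 2 : ℝ) : ℂ), Or.inr (Metric.mem_ball_self (by positivity)),
        Metric.mem_ball_self (by positivity)⟩
    rw [mem_ball_iff_norm] at hy1 hy2
    have h3 : ((ρ / 2 : ℝ) : ℂ) = (y - z) - (y - (z + ((ρ / 2 : ℝ) : ℂ))) := by ring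
    have h4 := norm_sub_le (y - z) (y - (z + ((ρ / 2 : ℝ) : ℂ)))
    rw [← h3, hnorm] at h4
    linarith

/-- Both questions.  (1) For every domain `G` and every open `U ⊆ G` there is an analytic (even
entire) `f` whose set of MacLane points relative to `G` is exactly `U`.  (2) On every domain `G`
there is an analytic `f` for which the set of MacLane points is nonempty and not connected.
(3) There are a simply connected domain `G` and an analytic `f` on `G` whose set of MacLane points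
is not connected. -/
theorem result :
    (∀ G : Set ℂ, IsOpen G → IsConnected G → ∀ U : Set ℂ, IsOpen U → U ⊆ G →
      ∃ f : ℂ → ℂ, Differentiable ℂ f ∧ macLane G f = U) ∧
    (∀ G : Set ℂ, IsOpen G → IsConnected G →
      ∃ f : ℂ → ℂ, Differentiable ℂ f ∧ (macLane G f).Nonempty ∧
        ¬ IsPreconnected (macLane G f)) ∧
    (∃ G : Set ℂ, IsOpen G ∧ IsConnected G ∧ SimplyConnectedSpace G ∧
      ∃ f : ℂ → ℂ, Differentiable ℂ f ∧ (macLane G f).Nonempty ∧
        ¬ IsPreconnected (macLane G f)) := by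
  have h2 : ∀ G : Set ℂ, IsOpen G → IsConnected G →
      ∃ f : ℂ → ℂ, Differentiable ℂ f ∧ (macLane G f).Nonempty ∧
        ¬ IsPreconnected (macLane G f) := by
    intro G hG hGc
    obtain ⟨U, hU, hUG, hUne, hUc⟩ := exists_disconnected G hG hGc.nonempty
    obtain ⟨f, hf, h⟩ := question_one G U hU hUG
    exact ⟨f, hf, by rw [h]; exact hUne, by rw [h]; exact hUc⟩
  refine ⟨fun G _ _ U hU hUG => question_one G U hU hUG, h2, ?_⟩
  have hball : IsConnected (Metric.ball (0 : ℂ) 1) :=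
    ⟨⟨0, Metric.mem_ball_self one_pos⟩, (convex_ball (0 : ℂ) 1).isPreconnected⟩
  refine ⟨Metric.ball (0 : ℂ) 1, Metric.isOpen_ball, hball, ?_, h2 _ Metric.isOpen_ball hball⟩
  have : ContractibleSpace (Metric.ball (0 : ℂ) 1) :=
    (convex_ball (0 : ℂ) 1).contractibleSpace hball.nonempty
  infer_instance

end Pool.Agent.Results.MP_b969c4_an.MacLane
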